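import Mathlib
import Pool.Agent.Helper5.CV.UBFin
import Pool.Agent.Helper5.CV.Q1Fin
import Pool.Agent.Helper34.GC.ST
import Pool.Agent.Helper78.CP.SG8

/-!
# MP_d32cb0_co: the asymptotic value of the biased clique game, and question Q1

Upper bound: `Pool.Agent.Helper5.CV.ub_final` (modules `Helper5/CV`), lower bound in the mixture region:
`Pool.Agent.Helper78.CP.value_lower_mix` (modules `Helper78/CH`, `Helper78/CP`), the static inequality and
the monotonicity of the constant: modules `Helper34/GC`, other lower bounds: `Helper78/CG`, `Helper25`.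
-/

set_option autoImplicit false

open Filter Topology Pool.Agent.Helper25.CliqueGame

namespace Pool.Agent.Results.MP_d32cb0_co.AsymptoticValue

open Classical in
/-- The constant `c(m, b)`: with `L1 = log (1 + b / m)`, `Lm = log (1 + b)`, `K = m L1 - Lm` and
`Q = (1 + √(1 + (m - 1)² Lm / K)) / Lm` it is `max (m / Lm) Q` if `(m - 1) / K ≤ Q` and
`max (m / Lm) (2 / L1)` otherwise (for `m = 1` the quotients by `K = 0` are `0` and `Q = 2 / Lm`). -/
noncomputable def cliqueConst (m b : ℕ) : ℝ :=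
  let L1 : ℝ := Real.log (1 + (b : ℝ) / m)
  let Lm : ℝ := Real.log (1 + (b : ℝ))
  let K : ℝ := m * L1 - Lm
  let Q : ℝ := (1 + √(1 + ((m : ℝ) - 1) ^ 2 * Lm / K)) / Lm
  max (m / Lm) (if ((m : ℝ) - 1) / K ≤ Q then Q else 2 / L1)

theorem cliqueConst_eq {m : ℕ} (hm : 1 ≤ m) (b : ℕ) :
    Pool.Agent.Helper5.CV.cst m b = cliqueConst m b := by
  have hm0 : (m : ℝ) ≠ 0 := by
    have : 0 < m := hm
    exact_mod_cast this.ne'
  have h1 : Pool.Agent.Helper5.CV.lam m b 1 = Real.log (1 + (b : ℝ) / m) := by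
    unfold Pool.Agent.Helper5.CV.lam
    rw [Nat.cast_one, mul_one]
  have h2 : Pool.Agent.Helper5.CV.lam m b m = Real.log (1 + (b : ℝ)) := by
    unfold Pool.Agent.Helper5.CV.lam
    rw [mul_div_assoc, div_self hm0, mul_one]
  unfold Pool.Agent.Helper5.CV.cst cliqueConst Pool.Agent.Helper5.CV.Qst Pool.Agent.Helper5.CV.Sst
    Pool.Agent.Helper5.CV.Kc
  rw [h1, h2]

end Pool.Agent.Results.MP_d32cb0_co.AsymptoticValue

/-- **The asymptotic value of the biased Maker-Breaker clique game, and question Q1 for all `m`, `b`.** -/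
theorem Pool.Agent.Results.MP_d32cb0_co.AsymptoticValue.result :
    (∀ m b : ℕ, 1 ≤ m → 1 ≤ b →
      Tendsto (fun N : ℕ => (value N m b : ℝ) / Real.log N) atTop (𝓝 (cliqueConst m b))) ∧
    (∀ m b : ℕ, 1 ≤ m → 1 ≤ b →
      (∃ N0 : ℕ, ∀ N : ℕ, N0 ≤ N → value N m (b + 1) < value N m b ∧
        value N m b < value N (m + 1) b) ∧
      Tendsto (fun N : ℕ => (value N m b : ℝ) - value N m (b + 1)) atTop atTop ∧
      Tendsto (fun N : ℕ => (value N (m + 1) b : ℝ) - value N m b) atTop atTop) := by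
  obtain ⟨h1, h2⟩ := Pool.Agent.Helper5.CV.final_of_bounds
    (fun m b hm hb ε hε => Pool.Agent.Helper5.CV.ub_final hm hb
      (fun s g hg => Pool.Agent.Helper34.GC.ST hm hb s g hg) hε)
    (fun m b hm hb ε hε => Pool.Agent.Helper5.CV.value_lower_cst hm hb
      (fun hm2 hSQ hQ ε' hε' => Pool.Agent.Helper78.CP.value_lower_mix hm2 hb hSQ hQ hε') hε)
  refine ⟨fun m b hm hb => ?_, h2⟩
  rw [← cliqueConst_eq hm b]
  exact h1 m b hm hb
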